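import Pool.Agent.Helper7.EC_E.GoalsS

set_option autoImplicit false

open MeasureTheory Filter Topology Set

namespace EC237.ZE.PkK0C

lemma mne (j : ℤ) : (6 * (j:ℂ) + 2) ≠ 0 := by
  intro h
  have h2 : ((6 * j + 2 : ℤ) : ℂ) = 0 := by push_cast; exact h
  have h3 : (6 * j + 2 : ℤ) = 0 := by exact_mod_cast h2
  omega

lemma mi (j : ℤ) (z : ℝ) : (6 * (j:ℂ) + 2) - Complex.I * z ≠ 0 := by
  intro h
  have h1 := congrArg Complex.re h
  simp at h1
  have h2 : ((6 * j + 2 : ℤ) : ℝ) = 0 := by push_cast; exact h1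
  have h3 : (6 * j + 2 : ℤ) = 0 := by exact_mod_cast h2
  omega

lemma mi' (j : ℤ) (z : ℝ) : (6 * (j:ℂ) + 2) + Complex.I * z ≠ 0 := by
  intro h
  have h1 := congrArg Complex.re h
  simp at h1
  have h2 : ((6 * j + 2 : ℤ) : ℝ) = 0 := by push_cast; exact h1
  have h3 : (6 * j + 2 : ℤ) = 0 := by exact_mod_cast h2
  omega

lemma key (m z : ℂ) (hm : m ≠ 0) (hz : z ≠ 0) (h1 : m - Complex.I * z ≠ 0)
    (h2 : m + Complex.I * z ≠ 0) :
    1 / (m / z * (1 + (m / z) ^ 2)) =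
      z * (1 / 2) * (Complex.I * z * (1 / (m * (Complex.I * z - m))) +
        -(Complex.I * z) * (1 / (m * (-(Complex.I * z) - m)))) := by
  have h1' : Complex.I * z - m ≠ 0 := by
    intro h; apply h1; linear_combination -h
  have h2' : -(Complex.I * z) - m ≠ 0 := by
    intro h; apply h2; linear_combination -h
  have hI : Complex.I ^ 2 = -1 := Complex.I_sq
  have h3 : z ^ 2 + m ^ 2 ≠ 0 := by
    have : z ^ 2 + m ^ 2 = (m - Complex.I * z) * (m + Complex.I * z) := by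
      linear_combination z ^ 2 * hI
    rw [this]; exact mul_ne_zero h1 h2
  have e1 : Complex.I * z * (1 / (m * (Complex.I * z - m))) = 1 / m + 1 / (Complex.I * z - m) := by
    field_simp
    ring
  have e2 : -(Complex.I * z) * (1 / (m * (-(Complex.I * z) - m))) =
      1 / m + 1 / (-(Complex.I * z) - m) := by
    field_simp
    ring
  have e3 : 1 / (Complex.I * z - m) + 1 / (-(Complex.I * z) - m) = -(2 * m) / (z ^ 2 + m ^ 2) := by
    rw [div_add_div _ _ h1' h2', div_eq_div_iff (mul_ne_zero h1' h2') h3]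
    linear_combination (-(2 * m) * z ^ 2) * (hI) 
  have e4 : (1 : ℂ) + (m / z) ^ 2 = (z ^ 2 + m ^ 2) / z ^ 2 := by
    field_simp
  have e5 : 1 / (m / z * (1 + (m / z) ^ 2)) = z ^ 3 / (m * (z ^ 2 + m ^ 2)) := by
    rw [e4]; field_simp
  rw [e5, e1, e2]
  have e6 : (1 / m + 1 / (Complex.I * z - m) + (1 / m + 1 / (-(Complex.I * z) - m))) =
      2 / m + -(2 * m) / (z ^ 2 + m ^ 2) := by
    rw [← e3]; ring
  rw [e6]
  field_simp
  ring

lemma hs (h1 : EC237.ZE.G_CC) (z : ℝ) (hz : 1 ≤ z) :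
    HasSum (fun j : ℤ => 1 / ((6 * (j:ℂ) + 2) / z * (1 + ((6 * (j:ℂ) + 2) / z) ^ 2)))
      ((z:ℂ) * (1 / 2) * ((Sf 1 2 0 + Sf 1 (-2) (Complex.I * z)) +
        (Sf 1 2 0 + Sf 1 (-2) (-(Complex.I * z))))) := by
  have hz0 : (z:ℂ) ≠ 0 := by
    have : z ≠ 0 := by linarith
    exact_mod_cast this
  have hIz : Complex.I * (z:ℂ) ≠ 0 := mul_ne_zero Complex.I_ne_zero hz0
  have a1 := ((h1 2 0 0 (Complex.I * z)
    (by intro j; have := mne j; simpa using this)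
    (by
      intro j h
      apply mi j z
      push_cast at h
      linear_combination -h)).1 (by simpa using hz0)).1
  have a2 := ((h1 2 0 0 (-(Complex.I * z))
    (by intro j; have := mne j; simpa using this)
    (by
      intro j h
      apply mi' j z
      push_cast at h
      linear_combination -h)).1 (by simpa using hz0)).1
  have b1 := a1.mul_left (Complex.I * (z:ℂ))
  have b2 := a2.mul_left (-(Complex.I * (z:ℂ)))
  have b3 := (b1.add b2).mul_left ((z:ℂ) * (1 / 2))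
  have e : (fun j : ℤ => 1 / ((6 * (j:ℂ) + 2) / z * (1 + ((6 * (j:ℂ) + 2) / z) ^ 2))) =
      fun j : ℤ => (z:ℂ) * (1 / 2) * (Complex.I * (z:ℂ) * (1 / ((6 * (j:ℂ) + ((2:ℤ):ℂ) + 0) *
        (((0:ℤ):ℂ) - ((2:ℤ):ℂ) - 6 * j + Complex.I * z))) +
        -(Complex.I * (z:ℂ)) * (1 / ((6 * (j:ℂ) + ((2:ℤ):ℂ) + 0) *
        (((0:ℤ):ℂ) - ((2:ℤ):ℂ) - 6 * j + -(Complex.I * z))))) := by
    funext j
    rw [key (6 * (j:ℂ) + 2) z (mne j) hz0 (mi j z) (mi' j z)]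
    have c1 : (6 * (j:ℂ) + ((2:ℤ):ℂ) + 0) = 6 * (j:ℂ) + 2 := by push_cast; ring
    have c2 : (((0:ℤ):ℂ) - ((2:ℤ):ℂ) - 6 * j + Complex.I * z) = Complex.I * z - (6 * (j:ℂ) + 2) := by
      push_cast; ring
    have c3 : (((0:ℤ):ℂ) - ((2:ℤ):ℂ) - 6 * j + -(Complex.I * z)) =
        -(Complex.I * z) - (6 * (j:ℂ) + 2) := by
      push_cast; ring
    rw [c1, c2, c3]
  rw [e]
  have e2 : ((z:ℂ) * (1 / 2) * ((Sf 1 2 0 + Sf 1 (-2) (Complex.I * z)) +
        (Sf 1 2 0 + Sf 1 (-2) (-(Complex.I * z))))) =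
      (z:ℂ) * (1 / 2) * (Complex.I * (z:ℂ) * ((Sf 1 2 0 + Sf 1 (0 - 2) (Complex.I * z)) /
        (((0:ℤ):ℂ) + 0 + Complex.I * z)) + -(Complex.I * (z:ℂ)) *
        ((Sf 1 2 0 + Sf 1 (0 - 2) (-(Complex.I * z))) / (((0:ℤ):ℂ) + 0 + -(Complex.I * z)))) := by
    have d1 : (((0:ℤ):ℂ) + 0 + Complex.I * z) = Complex.I * z := by push_cast; ring
    have d2 : (((0:ℤ):ℂ) + 0 + -(Complex.I * z)) = -(Complex.I * z) := by push_cast; ring
    have d3 : (0 - 2 : ℤ) = -2 := by norm_num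
    rw [d1, d2, d3, mul_div_cancel₀ _ hIz, mul_div_cancel₀ _ (neg_ne_zero.mpr hIz)]
  rw [e2]
  exact b3

theorem thm (h1 : EC237.ZE.G_CC) (h2 : EC237.ZE.G_CE) (h3 : EC237.ZE.G_CV) :
    EC237.ZE.G_K0C := by
  refine ⟨?_, fun z hz => (hs h1 z hz).summable⟩
  obtain ⟨C, hC, hCE⟩ := h2
  rw [← h3.2.2.2.1]
  rw [tendsto_iff_norm_sub_tendsto_zero]
  have hb : ∀ᶠ z : ℝ in atTop, ‖(z:ℂ)⁻¹ * ∑' j : ℤ,
      1 / ((6 * (j:ℂ) + 2) / z * (1 + ((6 * (j:ℂ) + 2) / z) ^ 2)) - Sf 1 2 0‖ ≤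
      C * Real.exp (-z) := by
    filter_upwards [eventually_ge_atTop (1:ℝ)] with z hz
    rw [(hs h1 z hz).tsum_eq]
    have hz0 : (z:ℂ) ≠ 0 := by
      have : z ≠ 0 := by linarith
      exact_mod_cast this
    have e : (z:ℂ)⁻¹ * ((z:ℂ) * (1 / 2) * ((Sf 1 2 0 + Sf 1 (-2) (Complex.I * z)) +
        (Sf 1 2 0 + Sf 1 (-2) (-(Complex.I * z))))) - Sf 1 2 0 =
        (1 / 2) * ((Sf 1 (-2) (-(Complex.I * z)) - Complex.I * (Real.pi / 6)) +
          (Sf 1 (-2) (Complex.I * z) + Complex.I * (Real.pi / 6))) := by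
      field_simp
      ring
    rw [e]
    have g := hCE (-2) z hz
    rw [norm_mul]
    have n1 : ‖(1 / 2 : ℂ)‖ = 1 / 2 := by norm_num
    rw [n1]
    have n2 := norm_add_le (Sf 1 (-2) (-(Complex.I * z)) - Complex.I * (Real.pi / 6))
      (Sf 1 (-2) (Complex.I * z) + Complex.I * (Real.pi / 6))
    have g1 := g.1
    have g2 := g.2.1
    linarith
  have hlim : Tendsto (fun z : ℝ => C * Real.exp (-z)) atTop (𝓝 0) := by
    have := (Real.tendsto_exp_neg_atTop_nhds_zero).const_mul C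
    simpa using this
  exact squeeze_zero' (Eventually.of_forall fun _ => norm_nonneg _) hb hlim

end EC237.ZE.PkK0C
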